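import Pool.Agent.H.MP_485030_co.A

namespace Pool.Agent.Results.MP_485030_co.AllBut

theorem result (n : ℕ) (h1 : 1 ≤ n) (h2 : n ≠ 2) (h4 : n ≠ 4) (h6 : n ≠ 6) :
    ∃ v : Fin (n + 1) → (Fin n → ℝ), AffineIndependent ℝ v ∧
      convexHull ℝ (Set.range v) ⊆ Set.Icc 0 1 ∧
      Set.Icc 0 1 ⊆
        AffineMap.homothety (Finset.univ.centroid ℝ v) (n : ℝ) '' convexHull ℝ (Set.range v) :=
  H.MP_485030_co.geo h1 (H.MP_485030_co.all h1 h2 h4 h6)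

end Pool.Agent.Results.MP_485030_co.AllBut
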